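import Pool.Agent.Results.MP_7ab245_nt.ZeroDiscrepancy
import Pool.Agent.W242.IM.Final2

/-!
# Mahler measures of polynomials with regularly distributed zeros

For an integer polynomial `f` of degree `n` let `N(t)` be the number of zeros of `f` (counted with
multiplicity) whose angle, divided by `2π` and taken in `[0, 1)`, is at most `t`, and let `D(f)` be
the quadratic discrepancy of the angles, the standard deviation of `N(t) - n t` on `[0, 1]`. It is at
most the largest deviation of the number of zeros in a sector from its expected value.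

Let `φ` be a nondecreasing function. Then the closure of the set of the Mahler measures of the
integer polynomials `f`, `f(0) ≠ 0`, with `D(f) ≤ φ(M(f))` consists of Mahler measures of integer
polynomials in several variables, and below every bound this set has finite Cantor-Bendixson rank.
In other words, in a sequence of integer polynomials whose measures converge to a number that is
not the measure of a polynomial in several variables, the discrepancy of the zeros tends to
infinity; and the limit points of the measures of the polynomials with `D(f) ≤ D` are again isolated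
after finitely many derivations below every bound.

Proof. `∫ log⁺ |f| ≤ log M(f) + √2 π D(f)`, see `Pool.Agent.Results.MP_7ab245_nt.ZeroDiscrepancy`,
hence the measures below a bound lie in one of the closed sets of finite rank given by
`∫ log max(|F|, |G|) ≤ K`.
-/

set_option autoImplicit false

open MeasureTheory Real Polynomial

namespace Pool.Agent.Results.MP_6d22ea_nt.BoundedDiscrepancy

noncomputable section

/-- Value of an integer polynomial in `k` variables at the torus point
`(exp (2 π i t_1), …, exp (2 π i t_k))`. -/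
def value {k : ℕ} (F : MvPolynomial (Fin k) ℤ) (t : Fin k → ℝ) : ℂ :=
  MvPolynomial.eval (fun j : Fin k => Complex.exp (2 * (Real.pi : ℂ) * Complex.I * ((t j : ℝ) : ℂ)))
    (MvPolynomial.map (Int.castRingHom ℂ) F)

/-- The Mahler measure of an integer polynomial in `k` variables. -/
def mahler {k : ℕ} (F : MvPolynomial (Fin k) ℤ) : ℝ :=
  Real.exp (∫ t in Set.Icc (0 : Fin k → ℝ) 1, Real.log ‖value F t‖)

/-- The set of the Mahler measures of the nonzero integer polynomials in any number of variables. -/
def allMeasures : Set ℝ :=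
  {x : ℝ | ∃ k : ℕ, 1 ≤ k ∧ ∃ F : MvPolynomial (Fin k) ℤ, F ≠ 0 ∧ x = mahler F}

/-- The Mahler measure of an integer polynomial in one variable. -/
def M (f : ℤ[X]) : ℝ := (f.map (Int.castRingHom ℂ)).mahlerMeasure

/-- The angle of a complex number divided by `2π`, in `[0, 1)`. -/
def angle (z : ℂ) : ℝ := Int.fract (Complex.arg z / (2 * π))

open Classical in
/-- The number of the complex zeros of `f`, with multiplicity, whose angle (divided by `2π`) is at
most `t`. -/
def zerosUpTo (f : ℤ[X]) (t : ℝ) : ℕ :=
  ((f.map (Int.castRingHom ℂ)).roots.filter fun z => angle z ≤ t).card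

/-- The counting error. -/
def error (f : ℤ[X]) (t : ℝ) : ℝ := zerosUpTo f t - f.natDegree * t

/-- The quadratic discrepancy of the angles of the zeros: the standard deviation of the counting
error. -/
def discrepancy (f : ℤ[X]) : ℝ :=
  √(∫ t in (0:ℝ)..1, (error f t - ∫ s in (0:ℝ)..1, error f s) ^ 2)

/-- The Mahler measures of the integer polynomials `f`, `f(0) ≠ 0`, with `D(f) ≤ φ(M(f))`. -/
def regularMeasures (φ : ℝ → ℝ) : Set ℝ :=
  {x : ℝ | ∃ f : ℤ[X], f.coeff 0 ≠ 0 ∧ discrepancy f ≤ φ (M f) ∧ x = M f}

/-- The Mahler measures of the integer polynomials `f`, `f(0) ≠ 0`, such that for all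
`0 ≤ s ≤ t ≤ 1` the number of the zeros of `f` with angle in `2π (s, t]` differs from
`(t - s) deg f` by at most `φ(M(f))`. -/
def sectorMeasures (φ : ℝ → ℝ) : Set ℝ :=
  {x : ℝ | ∃ f : ℤ[X], f.coeff 0 ≠ 0 ∧
    (∀ s t : ℝ, 0 ≤ s → s ≤ t → t ≤ 1 → |error f t - error f s| ≤ φ (M f)) ∧ x = M f}

/-- the zeros in a half open sector -/
theorem error_sub (f : ℤ[X]) (s t : ℝ) (hst : s ≤ t) : error f t - error f s =
    (Pool.Agent.Results.MP_7ab245_nt.ZeroDiscrepancy.zerosInSector f s t : ℝ) -
      f.natDegree * (t - s) := by
  classical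
  have h1 : zerosUpTo f t = zerosUpTo f s +
      Pool.Agent.Results.MP_7ab245_nt.ZeroDiscrepancy.zerosInSector f s t := by
    unfold zerosUpTo Pool.Agent.Results.MP_7ab245_nt.ZeroDiscrepancy.zerosInSector
    rw [← Multiset.card_add]
    congr 1
    rw [Multiset.filter_add_filter]
    have hand : ((f.map (Int.castRingHom ℂ)).roots.filter fun z => angle z ≤ s ∧
        (s < Pool.Agent.Results.MP_7ab245_nt.ZeroDiscrepancy.angle z ∧
          Pool.Agent.Results.MP_7ab245_nt.ZeroDiscrepancy.angle z ≤ t)) = 0 := by
      rw [Multiset.filter_eq_nil]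
      rintro z - ⟨h2, h3, -⟩
      exact absurd h3 (not_lt.2 h2)
    rw [hand, add_zero]
    refine Multiset.filter_congr fun z _ => ?_
    constructor
    · intro h
      rcases le_or_gt (angle z) s with h2 | h2
      · exact Or.inl h2
      · exact Or.inr ⟨h2, h⟩
    · rintro (h | h)
      · exact h.trans hst
      · exact h.2
  unfold error
  rw [h1]
  push_cast
  ring

theorem sector_sub (φ : ℝ → ℝ) : sectorMeasures φ ⊆ regularMeasures φ := by
  rintro x ⟨f, h0, h, rfl⟩
  refine ⟨f, h0, ?_, rfl⟩
  refine Pool.Agent.Results.MP_7ab245_nt.ZeroDiscrepancy.sector f _ fun s t hs hst ht => ?_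
  rw [← error_sub f s t hst]
  exact h s t hs hst ht

theorem inLL (φ : ℝ → ℝ) (hφ : Monotone φ) (B : ℝ) : ∃ K : ℝ,
    regularMeasures φ ∩ Set.Iio B ⊆ Pool.Agent.H261R2.CM.LL K := by
  refine ⟨Real.log (max B 1) + √2 * π * φ B, ?_⟩
  rintro x ⟨⟨f, h0, hD, rfl⟩, hx⟩
  have hf : f ≠ 0 := by rintro rfl; simp at h0
  have h1 := Pool.Agent.Results.MP_7ab245_nt.ZeroDiscrepancy.mean_le f h0
  rw [← Pool.Agent.Results.MP_7ab245_nt.ZeroDiscrepancy.logPlus_eq f] at h1
  have hpos : 0 < M f := mahlerMeasure_pos_of_ne_zero
    ((Polynomial.map_ne_zero_iff (RingHom.injective_int _)).2 hf)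
  refine Pool.Agent.W242.IM.m1_mem_LL f 1 hf one_ne_zero isRelPrime_one_right _ (h1.trans ?_)
  have h2 : Real.log (M f) ≤ Real.log (max B 1) :=
    Real.log_le_log hpos (hx.le.trans (le_max_left _ _))
  have h3 : discrepancy f ≤ φ B := hD.trans (hφ hx.le)
  have h4 : √2 * π * discrepancy f ≤ √2 * π * φ B :=
    mul_le_mul_of_nonneg_left h3 (by positivity)
  exact add_le_add h2 h4

/-- **Boyd's problem for polynomials with regularly distributed zeros.** -/
theorem result (φ : ℝ → ℝ) (hφ : Monotone φ) :
    closure (regularMeasures φ) ⊆ allMeasures ∧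
    (∀ B : ℝ, ∃ m : ℕ, ∀ x ∈ derivedSet^[m] (regularMeasures φ), B ≤ x) ∧
    sectorMeasures φ ⊆ regularMeasures φ := by
  have h := Pool.Agent.W242.IM.closure_of_LL (regularMeasures φ) (inLL φ hφ)
  exact ⟨h.1, h.2, sector_sub φ⟩

end

end Pool.Agent.Results.MP_6d22ea_nt.BoundedDiscrepancy
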