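import Mathlib
import Pool.Agent.Q262.FR.Own

/-!
# Mahler measures of isometries of indefinite lattices

Fix `r`, `c` and `Δ`.  Consider all integral lattices, of any rank and discriminant, with a
nondegenerate form with exactly `r` negative squares, all lattice vectors `v_1, …, v_r` that span a
negative definite subspace `V` of dimension `r` and satisfy `|det (v_i, v_j)| ≤ Δ`, and all isometries
`A` of the lattice (more generally integer matrices with `(A x, A x) ≤ (x, x)`) that move `V` by a
bounded amount, `(x, A y) ^ 2 ≤ c (x, x) (y, y)` on `V`.  The set of the Mahler measures of the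
characteristic polynomials of these `A` has finite Cantor-Bendixson rank, and its closure consists of
Mahler measures of integer polynomials in several variables.

Method: see `Pool.Agent.Results.MP_dc0c68_nt.IndefiniteLattices`.
-/

set_option autoImplicit false

namespace Pool.Agent.Results.MP_6d22ea_nt.IndefiniteLattices

open Polynomial

noncomputable section

/-- Value of an integer polynomial in `k` variables at the torus point
`(exp (2 π i t_1), …, exp (2 π i t_k))`. -/
def value {k : ℕ} (F : MvPolynomial (Fin k) ℤ) (t : Fin k → ℝ) : ℂ :=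
  MvPolynomial.eval (fun j : Fin k => Complex.exp (2 * (Real.pi : ℂ) * Complex.I * ((t j : ℝ) : ℂ)))
    (MvPolynomial.map (Int.castRingHom ℂ) F)

/-- The Mahler measure of an integer polynomial in `k` variables. -/
def mahlerMv {k : ℕ} (F : MvPolynomial (Fin k) ℤ) : ℝ :=
  Real.exp (∫ t in Set.Icc (0 : Fin k → ℝ) 1, Real.log ‖value F t‖)

/-- The set of the Mahler measures of the nonzero integer polynomials in any number of variables. -/
def allMeasures : Set ℝ :=
  {x : ℝ | ∃ k : ℕ, 1 ≤ k ∧ ∃ F : MvPolynomial (Fin k) ℤ, F ≠ 0 ∧ x = mahlerMv F}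

/-- The Mahler measure of an integer polynomial in one variable. -/
def mahler (P : ℤ[X]) : ℝ := (P.map (Int.castRingHom ℂ)).mahlerMeasure

/-- The symmetric bilinear form with the integral Gram matrix `G`. -/
def form {n : ℕ} (G : Matrix (Fin n) (Fin n) ℤ) (x y : Fin n → ℝ) : ℝ :=
  ∑ i, ∑ j, (G i j : ℝ) * x i * y j

/-- The linear combination of the lattice vectors `v k` with the real coefficients `c k`. -/
def comb {n r : ℕ} (v : Fin r → Fin n → ℤ) (c : Fin r → ℝ) : Fin n → ℝ :=
  fun i => ∑ k, c k * (v k i : ℝ)

/-- The image of the real vector `x` under the integer matrix `A`. -/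
def image {n : ℕ} (A : Matrix (Fin n) (Fin n) ℤ) (x : Fin n → ℝ) : Fin n → ℝ :=
  fun i => ∑ j, (A i j : ℝ) * x j

/-- The Gram matrix of the lattice vectors `v k`. -/
def gram {n r : ℕ} (G : Matrix (Fin n) (Fin n) ℤ) (v : Fin r → Fin n → ℤ) :
    Matrix (Fin r) (Fin r) ℤ :=
  Matrix.of fun i j => ∑ a, ∑ b, G a b * v i a * v j b

/-- The form is symmetric, negative definite on the span of the lattice vectors `v k` (which are
linearly independent) and positive definite on its orthogonal complement. In particular it is
nondegenerate with exactly `r` negative squares. -/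
structure IsNegativeBasis {n r : ℕ} (G : Matrix (Fin n) (Fin n) ℤ) (v : Fin r → Fin n → ℤ) :
    Prop where
  symmetric : G.transpose = G
  negative : ∀ c : Fin r → ℝ, c ≠ 0 → form G (comb v c) (comb v c) < 0
  positive : ∀ x : Fin n → ℝ, x ≠ 0 → (∀ c, form G (comb v c) x = 0) → 0 < form G x x

/-- The integer matrix `A` does not increase the form; for instance it is an isometry. -/
def IsNonincreasing {n : ℕ} (G A : Matrix (Fin n) (Fin n) ℤ) : Prop :=
  ∀ x : Fin n → ℝ, form G (image A x) (image A x) ≤ form G x x

/-- The matrix `A` moves the span of the `v k` by a bounded amount. -/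
def HasDisplacement (c : ℝ) {n r : ℕ} (G A : Matrix (Fin n) (Fin n) ℤ) (v : Fin r → Fin n → ℤ) :
    Prop :=
  ∀ s t : Fin r → ℝ, form G (comb v s) (image A (comb v t)) ^ 2 ≤
    c * (form G (comb v s) (comb v s) * form G (comb v t) (comb v t))

/-- The Mahler measures of the characteristic polynomials of the integer matrices of any size that
do not increase some integral form with `r` negative squares and that move a rational negative
definite subspace of dimension `r` and covolume at most `√Δ` by a bounded amount. -/
def latticeMeasures (r : ℕ) (c Δ : ℝ) : Set ℝ :=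
  {x : ℝ | ∃ (n : ℕ) (G A : Matrix (Fin n) (Fin n) ℤ) (v : Fin r → Fin n → ℤ),
    IsNegativeBasis G v ∧ IsNonincreasing G A ∧ |((gram G v).det : ℝ)| ≤ Δ ∧
      HasDisplacement c G A v ∧ x = mahler A.charpoly}

theorem result (r : ℕ) (c Δ : ℝ) : closure (latticeMeasures r c Δ) ⊆ allMeasures ∧
    ∃ k : ℕ, derivedSet^[k] (latticeMeasures r c Δ) = ∅ := by
  refine Q262.FR.closed_of r c Δ _ ?_
  rintro x ⟨n, G, A, v, h1, h2, h3, h4, h5⟩
  exact ⟨n, G, A, v, h1.symmetric, h1.negative, h1.positive, h2, h3, h4, h5⟩

end

end Pool.Agent.Results.MP_6d22ea_nt.IndefiniteLattices
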