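import Mathlib
import Pool.Agent.Q262.NS.Fin

/-!
# Mahler measures of nearly symmetric matrices

For a square matrix `A` of size `n` let `M(A)` be the Mahler measure of `z ^ n χ_A(z + 1/z)`.

For every `k` let `T(k)` be the set of the measures `M(A)` of all integer matrices, of any size, with
`∑ (a_ij - a_ji) ² ≤ k`. The closure of `T(k)` consists of Mahler measures of integer polynomials in
several variables; below every bound `T(k)` has finite Cantor-Bendixson rank. As `k → ∞` the sets
`T(k)` exhaust the measures of all monic reciprocal polynomials of even degree: those of length at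
most `L` belong to `T(8 L ²)`.

More generally this holds for the complex matrices `A` of `d × d` blocks that are Hermitian
outside a principal submatrix of `k` blocks of rows, with `∑ |a_ij - conj a_ji| ² ≤ k`, if the
characteristic polynomials of `A` and of all principal submatrices (made of blocks) without the
exceptional rows are integral. For `d = 1` this contains the integer matrices above, for `d = [K : ℚ]`
it contains the norms of the characteristic polynomials of the nearly Hermitian matrices over the
ring of integers of `K`.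

Method. The semicircle inequality bounds the excess of the eigenvalues of the Hermitian part of `A`
outside `[-2, 2]` in terms of `M(A)` and `k`. By packing, boundedly many rows can be deleted such
that the rest is Hermitian with all eigenvalues in `[-2, 2]`; the resulting pair of characteristic
polynomials has bounded height, and for such pairs the compactness is known (starting library).
-/

set_option autoImplicit false

namespace Pool.Agent.Results.MP_6d22ea_nt.NearlySymmetric

open Polynomial NumberField

noncomputable section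

/-- Value of an integer polynomial in `k` variables at the torus point
`(exp (2 π i t_1), …, exp (2 π i t_k))`. -/
def value {k : ℕ} (F : MvPolynomial (Fin k) ℤ) (t : Fin k → ℝ) : ℂ :=
  MvPolynomial.eval (fun j : Fin k => Complex.exp (2 * (Real.pi : ℂ) * Complex.I * ((t j : ℝ) : ℂ)))
    (MvPolynomial.map (Int.castRingHom ℂ) F)

/-- The Mahler measure of an integer polynomial in `k` variables. -/
def mahlerMv {k : ℕ} (F : MvPolynomial (Fin k) ℤ) : ℝ :=
  Real.exp (∫ t in Set.Icc (0 : Fin k → ℝ) 1, Real.log ‖value F t‖)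

/-- The set of the Mahler measures of the nonzero integer polynomials in any number of variables. -/
def allMeasures : Set ℝ :=
  {x : ℝ | ∃ k : ℕ, 1 ≤ k ∧ ∃ F : MvPolynomial (Fin k) ℤ, F ≠ 0 ∧ x = mahlerMv F}

/-- The polynomial `z ^ n p(z + 1/z)` for a polynomial `p` of degree `n`. -/
def joukowski (p : ℤ[X]) : ℤ[X] :=
  ∑ k ∈ Finset.range (p.natDegree + 1), C (p.coeff k) * (X ^ 2 + 1) ^ k * X ^ (p.natDegree - k)

/-- The Mahler measure of an integer polynomial. -/
def M (p : ℤ[X]) : ℝ := (p.map (Int.castRingHom ℂ)).mahlerMeasure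

/-- The length: the sum of the absolute values of the coefficients. -/
def length (p : ℤ[X]) : ℤ := ∑ i ∈ p.support, |p.coeff i|

/-- The characteristic polynomials of the integer matrices with `∑ (a_ij - a_ji) ² ≤ k`. -/
def NearlySymmetric (k : ℕ) (p : ℤ[X]) : Prop :=
  ∃ (n : ℕ) (A : Matrix (Fin n) (Fin n) ℤ),
    ∑ i, ∑ j, (A i j - A j i) ^ 2 ≤ (k : ℤ) ∧ A.charpoly = p

/-- The principal submatrix of a matrix of `d × d` blocks with the blocks in `U`. -/
def blocks {n d : ℕ} (A : Matrix (Fin n × Fin d) (Fin n × Fin d) ℂ) (U : Finset (Fin n)) :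
    Matrix (U × Fin d) (U × Fin d) ℂ :=
  A.submatrix (fun x => (x.1.1, x.2)) (fun x => (x.1.1, x.2))

/-- The integer polynomials that are the characteristic polynomial of a complex matrix of `d × d`
blocks, Hermitian outside a set `Z` of at most `k` blocks of rows, with `∑ |a_ij - conj a_ji| ² ≤ k`,
such that the principal submatrices made of blocks outside `Z` have integral characteristic
polynomials. -/
def NearlyHermitian (d k : ℕ) (p : ℤ[X]) : Prop :=
  ∃ (n : ℕ) (A : Matrix (Fin n × Fin d) (Fin n × Fin d) ℂ) (Z : Finset (Fin n)),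
    Z.card ≤ k ∧ (∀ i j, i.1 ∉ Z → A j i = star (A i j)) ∧
    ∑ i, ∑ j, ‖A i j - star (A j i)‖ ^ 2 ≤ (k : ℝ) ∧
    (∀ U, Disjoint U Z → ∃ q : ℤ[X], q.map (Int.castRingHom ℂ) = (blocks A U).charpoly) ∧
    A.charpoly = p.map (Int.castRingHom ℂ)

/-- The conjugate of a matrix over the ring of integers of a number field. -/
def conjugate {K : Type} [Field K] {n : ℕ} (A : Matrix (Fin n) (Fin n) (𝓞 K)) (σ : K →+* ℂ) :
    Matrix (Fin n) (Fin n) ℂ := A.map (fun x => σ (algebraMap (𝓞 K) K x))

/-- The norms of the characteristic polynomials of the matrices over the ring of integers of a number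
field of degree `d` that are Hermitian (with all conjugates) outside a set `Z` of at most `k` rows,
where the sum of all `|σ(a_ij) - conj σ(a_ji)| ²` is at most `k`. -/
def FieldNorm (d k : ℕ) (p : ℤ[X]) : Prop :=
  ∃ (K : Type) (_ : Field K) (_ : NumberField K), Module.finrank ℚ K = d ∧
    ∃ (n : ℕ) (A : Matrix (Fin n) (Fin n) (𝓞 K)) (Z : Finset (Fin n)), Z.card ≤ k ∧
      (∀ (σ : K →+* ℂ) (i j : Fin n), i ∉ Z → conjugate A σ j i = star (conjugate A σ i j)) ∧
      ∑ σ : K →+* ℂ, ∑ i, ∑ j, ‖conjugate A σ i j - star (conjugate A σ j i)‖ ^ 2 ≤ (k : ℝ) ∧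
      p.map (Int.castRingHom ℂ) = ∏ σ : K →+* ℂ, (conjugate A σ).charpoly

/-- The measures of a class of polynomials. -/
def measures (S : ℤ[X] → Prop) : Set ℝ := {x : ℝ | ∃ p, S p ∧ x = M (joukowski p)}

theorem result :
    (∀ d k : ℕ, closure (measures (NearlyHermitian d k)) ⊆ allMeasures ∧
      ∀ B : ℝ, ∃ m : ℕ, ∀ x ∈ derivedSet^[m] (measures (NearlyHermitian d k)), B ≤ x) ∧
    (∀ k p, NearlySymmetric k p → NearlyHermitian 1 k p) ∧
    (∀ d k p, FieldNorm d k p → NearlyHermitian d k p) ∧
    (∀ (L n : ℕ) (R : ℤ[X]), R.Monic → R.reverse = R → R.natDegree = 2 * n → length R ≤ L →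
      M R ∈ measures (NearlySymmetric (8 * L ^ 2))) := by
  refine ⟨fun d k => ?_, ?_, ?_, ?_⟩
  · have h0 : measures (NearlyHermitian d k) = Q262.NS.TC d k := by
      ext x
      constructor
      · rintro ⟨p, ⟨n, A, Z, h1, h2, h3, h4, h5⟩, rfl⟩
        have hp : p ≠ 0 := Pool.Agent.W242.IM.toC_charpoly_ne h5.symm
        refine ⟨n, A, Z, ⟨h1, h2, h3, h4, ⟨p, h5.symm⟩⟩, ?_⟩
        rw [h5]
        exact ((Pool.Agent.W242.IM.MM_toC p hp).trans (Q262.NS.m1_exp p hp).symm).symm
      · rintro ⟨n, A, Z, h, rfl⟩
        obtain ⟨p, hp⟩ := h.int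
        have hp0 : p ≠ 0 := Pool.Agent.W242.IM.toC_charpoly_ne hp
        refine ⟨p, ⟨n, A, Z, h.card, h.herm, h.frob, h.itg, hp.symm⟩, ?_⟩
        rw [← hp]
        exact (Pool.Agent.W242.IM.MM_toC p hp0).trans (Q262.NS.m1_exp p hp0).symm
    rw [h0]
    exact Pool.Agent.W242.IM.closure_of_LL _ (Q262.NS.TC_LL d k)
  · rintro k p ⟨n, A, hA, rfl⟩
    have h := Q262.NS.blow_NC A hA
    exact ⟨n, _, _, h.card, h.herm, h.frob, h.itg, Q262.NS.blow_charpoly A⟩
  · rintro d k p ⟨K, _, _, hd, n, A, Z, hZ, hH, hF, hp⟩
    obtain ⟨B, h, hB⟩ := Q262.NS.nf_near d k K hd n A Z hZ hH hF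
    exact ⟨n, B, Z, h.card, h.herm, h.frob, h.itg, hB.trans hp.symm⟩
  · intro L n R hm hr hdeg hL
    obtain ⟨n, A, h1, h2⟩ := Q262.NS.recip_matrix L n R hm hr hdeg hL
    exact ⟨A.charpoly, ⟨n, A, h1, rfl⟩, congrArg M h2.symm⟩

end

end Pool.Agent.Results.MP_6d22ea_nt.NearlySymmetric
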