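import Mathlib
import Pool.Agent.Q262.FR.Closed

/-!
# Mahler measures of finite-rank perturbations of contractions

Fix `r`, `N` and `b`.  Consider complex matrices `W` and `A`, of any size, whose characteristic
polynomials have integer coefficients, where `A - W` has rank at most `r` and norm at most `|N|`.

* If `W` is a contraction, the Mahler measures of the characteristic polynomials of all such `A`
  form a set whose closure consists of Mahler measures of integer polynomials in several variables
  and which has finite Cantor-Bendixson rank; all these numbers are Mahler measures of integer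
  polynomials in one variable of length at most `L(r, N)`.
* If `W` is an orthogonal direct sum of a contraction and of an operator that does not decrease
  norms and the measure of its characteristic polynomial is at most `b`, the same closure statement
  holds for the measures of the part of the characteristic polynomial of `A` that remains after
  division by the common divisor with the characteristic polynomial of `W`.
-/

set_option autoImplicit false

namespace Pool.Agent.Results.MP_6d22ea_nt.PerturbedContractions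

open Polynomial

noncomputable section

/-- Value of an integer polynomial in `k` variables at the torus point
`(exp (2 π i t_1), …, exp (2 π i t_k))`. -/
def value {k : ℕ} (F : MvPolynomial (Fin k) ℤ) (t : Fin k → ℝ) : ℂ :=
  MvPolynomial.eval (fun j : Fin k => Complex.exp (2 * (Real.pi : ℂ) * Complex.I * ((t j : ℝ) : ℂ)))
    (MvPolynomial.map (Int.castRingHom ℂ) F)

/-- The Mahler measure of an integer polynomial in `k` variables. -/
def mahlerMv {k : ℕ} (F : MvPolynomial (Fin k) ℤ) : ℝ :=
  Real.exp (∫ t in Set.Icc (0 : Fin k → ℝ) 1, Real.log ‖value F t‖)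

/-- The set of the Mahler measures of the nonzero integer polynomials in any number of variables. -/
def allMeasures : Set ℝ :=
  {x : ℝ | ∃ k : ℕ, 1 ≤ k ∧ ∃ F : MvPolynomial (Fin k) ℤ, F ≠ 0 ∧ x = mahlerMv F}

/-- The sum of the squares of the absolute values of the coordinates. -/
def sqNorm {n : ℕ} (x : Fin n → ℂ) : ℝ := ∑ i, ‖x i‖ ^ 2

/-- The Mahler measure of an integer polynomial in one variable. -/
def mahler (P : ℤ[X]) : ℝ := (P.map (Int.castRingHom ℂ)).mahlerMeasure

/-- The length: the sum of the absolute values of the coefficients. -/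
def length (P : ℤ[X]) : ℤ := ∑ i ∈ P.support, |P.coeff i|

/-- The complex matrix `W` does not increase norms. -/
def IsContraction {n : ℕ} (W : Matrix (Fin n) (Fin n) ℂ) : Prop :=
  ∀ x, sqNorm (W.mulVec x) ≤ sqNorm x

/-- There is an orthogonal projection `E` commuting with `W` such that `W` does not increase norms
on the range of `E` and does not decrease norms on its orthogonal complement. -/
def IsAdapted {n : ℕ} (W : Matrix (Fin n) (Fin n) ℂ) : Prop :=
  ∃ E : Matrix (Fin n) (Fin n) ℂ, E.conjTranspose = E ∧ E * E = E ∧ W * E = E * W ∧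
    (∀ x, sqNorm ((W * E).mulVec x) ≤ sqNorm (E.mulVec x)) ∧
    (∀ x, sqNorm ((1 - E).mulVec x) ≤ sqNorm ((W * (1 - E)).mulVec x))

/-- `A - W` has rank at most `r` and norm at most `|N|`. -/
def IsPerturbation (r : ℕ) (N : ℝ) {n : ℕ} (W A : Matrix (Fin n) (Fin n) ℂ) : Prop :=
  (A - W).rank ≤ r ∧ ∀ x, sqNorm ((A - W).mulVec x) ≤ N ^ 2 * sqNorm x

/-- The Mahler measures of the integral characteristic polynomials of the perturbations of rank at
most `r` and norm at most `|N|` of the contractions with integral characteristic polynomial. -/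
def perturbedMeasures (r : ℕ) (N : ℝ) : Set ℝ :=
  {x : ℝ | ∃ (n : ℕ) (W A : Matrix (Fin n) (Fin n) ℂ) (P Q : ℤ[X]), IsContraction W ∧
    IsPerturbation r N W A ∧ A.charpoly = P.map (Int.castRingHom ℂ) ∧
    W.charpoly = Q.map (Int.castRingHom ℂ) ∧ x = mahler P}

/-- The same for adapted `W` with a characteristic polynomial of measure at most `b`, where the
common divisor `D` of the two characteristic polynomials is removed. -/
def relativeMeasures (r : ℕ) (N b : ℝ) : Set ℝ :=
  {x : ℝ | ∃ (n : ℕ) (W A : Matrix (Fin n) (Fin n) ℂ) (D P Q : ℤ[X]), IsAdapted W ∧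
    IsPerturbation r N W A ∧ A.charpoly = (D * P).map (Int.castRingHom ℂ) ∧
    W.charpoly = (D * Q).map (Int.castRingHom ℂ) ∧ IsRelPrime P Q ∧ mahler (D * Q) ≤ b ∧
    x = mahler P}

theorem result (r : ℕ) (N : ℝ) :
    (closure (perturbedMeasures r N) ⊆ allMeasures ∧
      (∃ k : ℕ, derivedSet^[k] (perturbedMeasures r N) = ∅) ∧
      ∃ L : ℕ, ∀ x ∈ perturbedMeasures r N, ∃ R : ℤ[X], length R ≤ L ∧ x = mahler R) ∧
    ∀ b : ℝ, closure (relativeMeasures r N b) ⊆ allMeasures ∧
      ∃ k : ℕ, derivedSet^[k] (relativeMeasures r N b) = ∅ := by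
  have hN2 : |N| ^ 2 = N ^ 2 := sq_abs N
  obtain ⟨μ, L, -, h⟩ := Q262.FR.main r |N| (abs_nonneg N)
  refine ⟨?_, fun b => ?_⟩
  · rw [← and_assoc]
    constructor
    · refine Q262.FR.closed_of_pairs (Real.log 1 + Q262.FR.cst r
        (8 * (Real.log 2 + Real.log (1 + |N|)))) _ ?_
      rintro x ⟨n, W, A, P, Q, hW, ⟨hr, hA⟩, hP, hQ, rfl⟩
      have hP0 := Q262.FR.ne_of_charpoly A P hP
      have hQ0 := Q262.FR.ne_of_charpoly W Q hQ
      obtain ⟨Q', P', D, hrel, h1, h2⟩ :=
        UniqueFactorizationMonoid.exists_reduced_factors Q hQ0 P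
      have hm : Pool.Agent.H261R2.CM.m1 (D * Q') = 1 := by
        rw [h1]
        unfold Pool.Agent.H261R2.CM.m1
        have h3 := Q262.FR.mahler_ctr W (Q262.FR.ctr_of W hW)
        rw [hQ] at h3
        exact h3
      have hP2 : A.charpoly = Pool.Agent.H261R2.CM.toC (D * P') := by
        rw [h2]
        exact hP
      have hQ2 : W.charpoly = Pool.Agent.H261R2.CM.toC (D * Q') := by
        rw [h1]
        exact hQ
      obtain ⟨g1, g2, g3⟩ := Q262.FR.adapted_pair r |N| 1 (abs_nonneg N) n W A 1 P' Q' D
        (Q262.FR.adC_of_ctr W (Q262.FR.ctr_of W hW))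
        (Q262.FR.norm_le_of _ _ (abs_nonneg N) (fun x => by rw [hN2]; exact hA x)) hr hP2 hQ2 hm.le
      refine ⟨P', Q', g1, g2, hrel.symm, g3, ?_⟩
      have hD0 : D ≠ 0 := by
        rintro rfl
        rw [zero_mul] at h2
        exact hP0 h2.symm
      have hD1 : Pool.Agent.H261R2.CM.m1 D = 1 := by
        have h4 := Pool.Agent.Y820.LB.one_le_m1 hD0
        have h5 := Pool.Agent.Y820.LB.one_le_m1 g2
        rw [Pool.Agent.Y820.LB.m1_mul] at hm
        nlinarith
      have h6 : Pool.Agent.H261R2.CM.m1 P = Pool.Agent.H261R2.CM.m1 P' := by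
        rw [← h2, Pool.Agent.Y820.LB.m1_mul, hD1, one_mul]
      exact h6
    · refine ⟨L, ?_⟩
      rintro x ⟨n, W, A, P, Q, hW, ⟨hr, hA⟩, hP, hQ, rfl⟩
      obtain ⟨-, Φ, Ψ, R, -, -, -, g1, g2, g3, g4⟩ := h n W A P Q (Q262.FR.ctr_of W hW)
        (Q262.FR.norm_le_of _ _ (abs_nonneg N) (fun x => by rw [hN2]; exact hA x)) hr hP hQ
      refine ⟨R, g4, ?_⟩
      have h1 := congrArg Pool.Agent.H261R2.CM.m1 g3
      rw [Pool.Agent.Y820.LB.m1_mul, Pool.Agent.Y820.LB.m1_mul, g1, g2, mul_one, mul_one] at h1
      exact h1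
  · refine Q262.FR.closed_of_pairs (Real.log b + Q262.FR.cst r
      (8 * (Real.log 2 + Real.log (1 + |N|)))) _ ?_
    rintro x ⟨n, W, A, D, P, Q, ⟨E, h1, h2, h3, h4, h5⟩, ⟨hr, hA⟩, hP, hQ, hrel, hb, rfl⟩
    have hE : Q262.FR.AdC W E := ⟨h1, h2, h3, Pool.Agent.Y820.LB.act_le _ _ h4,
      Pool.Agent.Y820.LB.act_le _ _ h5⟩
    obtain ⟨g1, g2, g3⟩ := Q262.FR.adapted_pair r |N| b (abs_nonneg N) n W A E P Q D hE
      (Q262.FR.norm_le_of _ _ (abs_nonneg N) (fun x => by rw [hN2]; exact hA x)) hr hP hQ hb
    exact ⟨P, Q, g1, g2, hrel, g3, rfl⟩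

end

end Pool.Agent.Results.MP_6d22ea_nt.PerturbedContractions
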